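import Pool.Agent.H95.KlO

set_option autoImplicit false

open Pool.Agent.H95.KlO

theorem Pool.Agent.Results.MP_f7aa94_lc.NotRed.result
    (d : (ℕ → ℕ → Prop) → ℕ → Bool) (hd : Function.Injective d) :
    ∃ F : (ℕ → Bool) → ℕ → Bool, Clarifies d F ∧ ¬ ∃ R0 R1 : (ℕ → Bool) → ℕ → Bool,
      Continuous R0 ∧ Continuous R1 ∧ ∀ x, R1 (F (R0 x)) = kleeneO x :=
  main d hd
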